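import Pool.Agent.H31.FW.TargetsG

/-!
# The factorization of a friable ideal (row FS of `fw_modules`)
-/

set_option autoImplicit false

open NumberField

namespace Pool.Agent.H64.FW.FS

open Pool.Agent.H23.LB Pool.Agent.H31.FW

variable {K : Type} [Field K] [NumberField K]

omit [NumberField K] in
theorem mL (a b : Ideal (𝓞 K)) : a * b ≤ a := Ideal.mul_le_left

omit [NumberField K] in
theorem mR (a b : Ideal (𝓞 K)) : a * b ≤ b := Ideal.mul_le_right

/-- a proper prime ideal which is not zero is coprime to the powers of another prime ideal -/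
theorem cop_pow {P P' : Ideal (𝓞 K)} (hP : P.IsPrime) (hP0 : P ≠ ⊥) (hP' : P'.IsPrime)
    (hP0' : P' ≠ ⊥) (hne : P ≠ P') (a c : ℕ) : IsCoprime (P ^ a) (P' ^ c) := by
  have h1 : P.IsMaximal := hP.isMaximal hP0
  have h2 : P'.IsMaximal := hP'.isMaximal hP0'
  have h3 : IsCoprime P P' := by
    rw [Ideal.isCoprime_iff_sup_eq]
    exact Ideal.IsMaximal.coprime_of_ne h1 h2 hne
  exact h3.pow

theorem le_pow_of_mul {P P' : Ideal (𝓞 K)} (hP : P.IsPrime) (hP0 : P ≠ ⊥) (hP' : P'.IsPrime)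
    (hP0' : P' ≠ ⊥) (hne : P ≠ P') (a c : ℕ) {q : Ideal (𝓞 K)} (h : q * P ^ a ≤ P' ^ c) :
    q ≤ P' ^ c := by
  rw [← Ideal.dvd_iff_le] at h ⊢
  exact (cop_pow hP hP0 hP' hP0' hne a c).symm.dvd_of_dvd_mul_right h

/-- exact power -/
theorem exists_pow {P l : Ideal (𝓞 K)} (hP : P.IsPrime) (hl : l ≠ ⊥) (h : l ≤ P) :
    ∃ a : ℕ, 1 ≤ a ∧ ∃ l' : Ideal (𝓞 K), l = P ^ a * l' ∧ ¬ l' ≤ P := by
  have hu : ¬ IsUnit P := by
    rw [Ideal.isUnit_iff]; exact hP.ne_top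
  have hfin : FiniteMultiplicity P l := FiniteMultiplicity.of_not_isUnit hu hl
  obtain ⟨l', h1, h2⟩ := hfin.exists_eq_pow_mul_and_not_dvd
  refine ⟨multiplicity P l, ?_, l', h1, ?_⟩
  · by_contra h0
    have h0' : multiplicity P l = 0 := by omega
    rw [h0', pow_zero, one_mul] at h1
    apply h2
    rw [← h1, Ideal.dvd_iff_le]
    exact h
  · rwa [Ideal.dvd_iff_le] at h2

/-- divisibility is checked at the prime powers -/
theorem le_of_prime_pow {a b : Ideal (𝓞 K)} (ha : a ≠ ⊥) (hb : b ≠ ⊥)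
    (h : ∀ P : Ideal (𝓞 K), P.IsPrime → P ≠ ⊥ → ∀ k : ℕ, 1 ≤ k → a ≤ P ^ k → b ≤ P ^ k) :
    b ≤ a := by
  classical
  rw [← Ideal.dvd_iff_le, UniqueFactorizationMonoid.dvd_iff_normalizedFactors_le_normalizedFactors
    (by simpa using ha) (by simpa using hb), Multiset.le_iff_count]
  intro P
  by_cases hP : P ∈ UniqueFactorizationMonoid.normalizedFactors a
  · have hPp : Prime P := UniqueFactorizationMonoid.prime_of_normalized_factor P hP
    have hP0 : P ≠ ⊥ := by simpa using hPp.ne_zero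
    have hPi : P.IsPrime := Ideal.isPrime_of_prime hPp
    set k := Multiset.count P (UniqueFactorizationMonoid.normalizedFactors a) with hk
    have hk1 : 1 ≤ k := Multiset.one_le_count_iff_mem.2 hP
    have e1 : a ≤ P ^ k := by
      rw [← Ideal.dvd_iff_le, pow_dvd_iff_le_emultiplicity,
        UniqueFactorizationMonoid.emultiplicity_eq_count_normalizedFactors hPp.irreducible
          (by simpa using ha), normalize_eq]
    have e2 := h P hPi hP0 k hk1 e1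
    rw [← Ideal.dvd_iff_le, pow_dvd_iff_le_emultiplicity,
        UniqueFactorizationMonoid.emultiplicity_eq_count_normalizedFactors hPp.irreducible
          (by simpa using hb), normalize_eq] at e2
    exact_mod_cast e2
  · rw [Multiset.count_eq_zero_of_notMem hP]
    exact Nat.zero_le _


omit [NumberField K] in
theorem ne_bot_of_le {P f : Ideal (𝓞 K)} (hf : f ≠ ⊥) (h : f ≤ P) : P ≠ ⊥ := by
  rintro rfl
  exact hf (le_bot_iff.1 h)

omit [NumberField K] in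
theorem sup_of_mul_left {P l' x : Ideal (𝓞 K)} {a : ℕ} (h : P ^ a * l' ⊔ x = ⊤) :
    IsCoprime l' x := by
  rw [← Ideal.isCoprime_iff_sup_eq] at h
  exact h.of_mul_left_right

theorem isCoprime_pow_of_not_le {P l' : Ideal (𝓞 K)} (hP : P.IsPrime) (hP0 : P ≠ ⊥)
    (h : ¬ l' ≤ P) (a : ℕ) : IsCoprime l' (P ^ a) := by
  have hm : P.IsMaximal := hP.isMaximal hP0
  have h1 : IsCoprime l' P := by
    rw [Ideal.isCoprime_iff_sup_eq]
    rcases hm.eq_of_le (J := l' ⊔ P) with h2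
    by_contra h3
    have h4 := hm.eq_of_le h3 le_sup_right
    exact h (h4 ▸ le_sup_left)
  exact h1.pow_right

omit [NumberField K] in
/-- the prime `P` does not divide `g q` -/
theorem not_le_of_cop {P l g q : Ideal (𝓞 K)} (hP : P.IsPrime) (h : GQ l g q) (hl : l ≤ P) :
    ¬ g ≤ P ∧ ¬ q ≤ P := by
  have h1 : ¬ g * q ≤ P := by
    intro h2
    have h3 : l ⊔ g * q ≤ P := sup_le hl h2
    rw [h.cop, top_le_iff] at h3
    exact hP.ne_top h3
  have hm1 : g * q ≤ g := mL _ _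
  have hm2 : g * q ≤ q := mR _ _
  exact ⟨fun h2 => h1 (hm1.trans h2), fun h2 => h1 (hm2.trans h2)⟩

omit [NumberField K] in
theorem bot_mul {a b : Ideal (𝓞 K)} (h : a * b ≠ ⊥) : a ≠ ⊥ ∧ b ≠ ⊥ := by
  constructor
  · rintro rfl
    exact h (Ideal.bot_mul b)
  · rintro rfl
    exact h (Ideal.mul_bot a)

omit [NumberField K] in
theorem mul_ne_bot {a b : Ideal (𝓞 K)} (ha : a ≠ ⊥) (hb : b ≠ ⊥) : a * b ≠ ⊥ := by
  rw [← Ideal.zero_eq_bot] at *
  exact mul_ne_zero ha hb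

omit [NumberField K] in
theorem pow_ne_bot' {a : Ideal (𝓞 K)} (ha : a ≠ ⊥) (k : ℕ) : a ^ k ≠ ⊥ := by
  rw [← Ideal.zero_eq_bot] at *
  exact pow_ne_zero k ha

/-- step (1a) -/
theorem GQ1 {P l' g q : Ideal (𝓞 K)} {a : ℕ} (hP : P.IsPrime) (hP0 : P ≠ ⊥) (ha : 1 ≤ a)
    (ha2 : a ≤ 2) (hl' : ¬ l' ≤ P) (h : GQ (P ^ a * l') g q) : GQ l' g (q * P ^ a) := by
  have hl : P ^ a * l' ≤ P := (mL _ _).trans (Ideal.pow_le_self (by omega))
  obtain ⟨hg, hq⟩ := not_le_of_cop hP h hl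
  refine ⟨(bot_mul h.l_ne).2, h.g_ne, mul_ne_bot h.q_ne (pow_ne_bot' hP0 a), ?_, ?_, ?_⟩
  · rw [← Ideal.isCoprime_iff_sup_eq, ← mul_assoc]
    exact (sup_of_mul_left h.cop).mul_right (isCoprime_pow_of_not_le hP hP0 hl' a)
  · intro P' hP' hgP'
    exact (mL _ _).trans (h.rad P' hP' hgP')
  · intro P' hP' hqP'
    have hP0' : P' ≠ ⊥ := ne_bot_of_le (mul_ne_bot h.q_ne (pow_ne_bot' hP0 a)) hqP'
    by_cases he : P = P'
    · subst he
      left
      refine ⟨hg, ?_⟩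
      intro h3
      have h4 : P ^ 3 = P ^ a * P ^ (3 - a) := by rw [← pow_add]; congr 1; omega
      rw [h4, mul_comm q, ← Ideal.dvd_iff_le] at h3
      have h5 := (mul_dvd_mul_iff_left (pow_ne_bot' hP0 a)).1 h3
      rw [Ideal.dvd_iff_le] at h5
      exact hq (h5.trans (Ideal.pow_le_self (by omega)))
    · have hq' : q ≤ P' := by
        have := le_pow_of_mul hP hP0 hP' hP0' he a 1 (q := q) (by rwa [pow_one])
        rwa [pow_one] at this
      rcases h.loc P' hP' hq' with ⟨h1, h2⟩ | ⟨h1, h2⟩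
      · left
        exact ⟨h1, fun h3 => h2 (le_pow_of_mul hP hP0 hP' hP0' he a 3 h3)⟩
      · right
        exact ⟨(mL _ _).trans h1, h2⟩

/-- step (1b) -/
theorem GQ2 {P l' g q : Ideal (𝓞 K)} {a : ℕ} (hP : P.IsPrime) (hP0 : P ≠ ⊥) (ha : 3 ≤ a)
    (h2P : (2 : 𝓞 K) ∉ P ^ (a - 2)) (hl' : ¬ l' ≤ P) (h : GQ (P ^ a * l') g q) :
    GQ l' (g * P ^ (a - 2)) (q * P ^ 2) := by
  refine ⟨(bot_mul h.l_ne).2, mul_ne_bot h.g_ne (pow_ne_bot' hP0 _),
    mul_ne_bot h.q_ne (pow_ne_bot' hP0 2), ?_, ?_, ?_⟩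
  · rw [← Ideal.isCoprime_iff_sup_eq]
    have e : g * P ^ (a - 2) * (q * P ^ 2) = (g * q) * (P ^ (a - 2) * P ^ 2) := by ring
    rw [e, ← pow_add]
    exact (sup_of_mul_left h.cop).mul_right (isCoprime_pow_of_not_le hP hP0 hl' _)
  · intro P' hP' hgP'
    rcases (Ideal.IsPrime.mul_le hP').1 hgP' with h1 | h1
    · exact (mL _ _).trans (h.rad P' hP' h1)
    · have h3 : P ≤ P' := hP'.le_of_pow_le h1
      exact (mR _ _).trans ((Ideal.pow_le_self (by norm_num)).trans h3)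
  · intro P' hP' hqP'
    have hP0' : P' ≠ ⊥ := ne_bot_of_le (mul_ne_bot h.q_ne (pow_ne_bot' hP0 2)) hqP'
    by_cases he : P = P'
    · subst he
      right
      refine ⟨mR _ _, ?_⟩
      intro t ht
      have h3 : t + 1 ≤ a - 2 := by
        by_contra h4
        exact h2P (Ideal.pow_le_pow_right (by omega) ht)
      exact (mR _ _).trans (Ideal.pow_le_pow_right h3)
    · have hq' : q ≤ P' := by
        have := le_pow_of_mul hP hP0 hP' hP0' he 2 1 (q := q) (by rwa [pow_one])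
        rwa [pow_one] at this
      rcases h.loc P' hP' hq' with ⟨h1, h2⟩ | ⟨h1, h2⟩
      · left
        refine ⟨fun h3 => h1 ?_, fun h3 => h2 (le_pow_of_mul hP hP0 hP' hP0' he 2 3 h3)⟩
        have := le_pow_of_mul hP hP0 hP' hP0' he (a - 2) 1 (q := g) (by rwa [pow_one])
        rwa [pow_one] at this
      · right
        exact ⟨(mL _ _).trans h1, fun t ht => (mL _ _).trans (h2 t ht)⟩

/-- step (2) -/
theorem GQ3 {P l g' q : Ideal (𝓞 K)} {s : ℕ} (hP : P.IsPrime) (hP0 : P ≠ ⊥) (hs : 2 ≤ s)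
    (h2P : (2 : 𝓞 K) ∉ P ^ (s - 1)) (h : GQ l (P ^ s * g') q) :
    GQ l (P ^ (s - 1) * g') (q * P) := by
  have hsp : P ^ s = P * P ^ (s - 1) := by rw [← pow_succ']; congr 1; omega
  have hgg : P ^ s * g' ≤ P ^ (s - 1) * g' := by
    rw [hsp, mul_assoc]; exact mR _ _
  refine ⟨h.l_ne, mul_ne_bot (pow_ne_bot' hP0 _) (bot_mul h.g_ne).2,
    mul_ne_bot h.q_ne hP0, ?_, ?_, ?_⟩
  · have e : P ^ (s - 1) * g' * (q * P) = P ^ s * g' * q := by rw [hsp]; ring
    rw [e]; exact h.cop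
  · intro P' hP' hgP'
    exact (mL _ _).trans (h.rad P' hP' (hgg.trans hgP'))
  · intro P' hP' hqP'
    have hP0' : P' ≠ ⊥ := ne_bot_of_le (mul_ne_bot h.q_ne hP0) hqP'
    have hgP : P ^ s * g' ≤ P := (mL _ _).trans (Ideal.pow_le_self (by omega))
    by_cases he : P = P'
    · subst he
      right
      have hqP : q ≤ P := h.rad P hP hgP
      refine ⟨?_, ?_⟩
      · rw [pow_two]; exact Ideal.mul_mono_left hqP
      intro t ht
      have h3 : t + 1 ≤ s - 1 := by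
        by_contra h4
        exact h2P (Ideal.pow_le_pow_right (by omega) ht)
      exact (mL _ _).trans (Ideal.pow_le_pow_right h3)
    · have hq' : q ≤ P' := by
        have := le_pow_of_mul hP hP0 hP' hP0' he 1 1 (q := q) (by rwa [pow_one, pow_one])
        rwa [pow_one] at this
      rcases h.loc P' hP' hq' with ⟨h1, h2⟩ | ⟨h1, h2⟩
      · left
        refine ⟨fun h3 => h1 (hgg.trans h3), fun h3 => h2 ?_⟩
        exact le_pow_of_mul hP hP0 hP' hP0' he 1 3 (by rwa [pow_one])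
      · right
        refine ⟨(mL _ _).trans h1, fun t ht => ?_⟩
        have h3 := h2 t ht
        have h4 : P ^ (s - 1) * g' * P ^ 1 ≤ P' ^ (t + 1) := by
          have e : P ^ (s - 1) * g' * P ^ 1 = P ^ s * g' := by rw [hsp, pow_one]; ring
          rw [e]; exact h3
        exact le_pow_of_mul hP hP0 hP' hP0' he 1 (t + 1) h4

theorem pow_exp_le {P l l' : Ideal (𝓞 K)} {a k : ℕ} (hP0 : P ≠ ⊥) (h : l = P ^ a * l')
    (hl' : ¬ l' ≤ P) (hk : l ≤ P ^ k) : k ≤ a := by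
  by_contra h1
  apply hl'
  have h2 : P ^ a * l' ≤ P ^ a * P := by
    rw [← pow_succ, ← h]
    exact hk.trans (Ideal.pow_le_pow_right (by omega))
  rw [← Ideal.dvd_iff_le] at h2 ⊢
  exact (mul_dvd_mul_iff_left (pow_ne_bot' hP0 a)).1 h2

theorem absNorm_span_pow (n c : ℕ) (hn : Module.finrank ℚ K = n) :
    Ideal.absNorm (Ideal.span {(c : 𝓞 K)}) = c ^ n := by
  rw [Ideal.absNorm_span_singleton, Algebra.norm_natCast, RingOfIntegers.rank K, hn]
  simp [Int.natAbs_pow]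

theorem absNorm_le {a b : Ideal (𝓞 K)} (hb : b ≠ ⊥) (h : b ≤ a) :
    Ideal.absNorm a ≤ Ideal.absNorm b := by
  apply Nat.le_of_dvd
  · exact Nat.pos_of_ne_zero (fun h0 => hb (Ideal.absNorm_eq_zero_iff.1 h0))
  · exact Ideal.absNorm_dvd_absNorm_of_le h

theorem span_ne_bot (c : ℕ) (hc : c ≠ 0) : Ideal.span {(c : 𝓞 K)} ≠ ⊥ := by
  rw [Ne, Ideal.span_singleton_eq_bot]
  exact_mod_cast hc

theorem pf_FS : Q_FS := by
  intro n
  refine ⟨32 ^ n, one_le_pow₀ (by norm_num), ?_⟩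
  intro K _ _ hn f Y hf hY hfr
  have hfpos : 1 ≤ Ideal.absNorm f :=
    Nat.one_le_iff_ne_zero.2 (fun h0 => hf (Ideal.absNorm_eq_zero_iff.1 h0))
  have hNf1 : (1 : ℝ) ≤ Nf K f := by unfold Nf; exact_mod_cast hfpos
  have hex : ∃ m : ℕ, ∃ l g q : Ideal (𝓞 K), GQ l g q ∧ f = l * (g * q) ∧
      Nf K f ^ (1 / 3 : ℝ) ≤ Nf K (l * g) ∧ Ideal.absNorm (l * g) = m := by
    refine ⟨_, f, ⊤, ⊤, ⟨hf, top_ne_bot, top_ne_bot, by simp, ?_, ?_⟩, by simp, ?_, rfl⟩
    · intro P hP h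
      exact absurd (top_le_iff.1 h) hP.ne_top
    · intro P hP h
      exact absurd (top_le_iff.1 h) hP.ne_top
    · rw [Ideal.mul_top]
      calc Nf K f ^ (1 / 3 : ℝ) ≤ Nf K f ^ (1 : ℝ) :=
            Real.rpow_le_rpow_of_exponent_le hNf1 (by norm_num)
        _ = Nf K f := Real.rpow_one _
  classical
  obtain ⟨l, g, q, hG, hfe, hlow, hm⟩ := Nat.find_spec hex
  have hmin := fun m (hm : m < Nat.find hex) => Nat.find_min hex hm
  refine ⟨l, g, q, hG, hfe, hlow, ?_⟩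
  by_contra hcon
  push Not at hcon
  have hY2 : (1 : ℝ) ≤ Y ^ 2 := one_le_pow₀ hY
  have hC1 : (1 : ℝ) ≤ 32 ^ n := one_le_pow₀ (by norm_num)
  have h3pos : 0 < Nf K f ^ (1 / 3 : ℝ) := Real.rpow_pos_of_pos (by linarith) _
  -- descent
  have key : ∀ R l2 g2 q2 : Ideal (𝓞 K), GQ l2 g2 q2 → f = l2 * (g2 * q2) →
      l * g = R * (l2 * g2) → R ≠ ⊤ → Nf K R ≤ Y ^ 2 → False := by
    intro R l2 g2 q2 hG2 hf2 he hR hRY
    have hN : Ideal.absNorm (l * g) = Ideal.absNorm R * Ideal.absNorm (l2 * g2) := by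
      rw [he, map_mul]
    have hlg0 : l * g ≠ ⊥ := mul_ne_bot hG.l_ne hG.g_ne
    have hR0 : R ≠ ⊥ := by
      rintro rfl
      exact hlg0 (he.trans (Ideal.bot_mul _))
    have hR1 : Ideal.absNorm R ≠ 0 := fun h0 => hR0 (Ideal.absNorm_eq_zero_iff.1 h0)
    have hR2 : Ideal.absNorm R ≠ 1 := fun h0 => hR (Ideal.absNorm_eq_one_iff.1 h0)
    have hx0 : l2 * g2 ≠ ⊥ := mul_ne_bot hG2.l_ne hG2.g_ne
    have hx1 : Ideal.absNorm (l2 * g2) ≠ 0 := fun h0 => hx0 (Ideal.absNorm_eq_zero_iff.1 h0)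
    have hxpos : 0 < Ideal.absNorm (l2 * g2) := Nat.pos_of_ne_zero hx1
    have hlt : Ideal.absNorm (l2 * g2) < Ideal.absNorm (l * g) := by
      rw [hN]
      have : 2 ≤ Ideal.absNorm R := by omega
      nlinarith
    apply hmin (Ideal.absNorm (l2 * g2)) (by rw [← hm]; exact hlt)
    refine ⟨l2, g2, q2, hG2, hf2, ?_, rfl⟩
    have hNr : Nf K (l * g) = Nf K R * Nf K (l2 * g2) := by
      unfold Nf; rw [hN]; push_cast; ring
    by_contra h4
    push Not at h4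
    have hxr : 0 < Nf K (l2 * g2) := by unfold Nf; exact_mod_cast hxpos
    have h5 : Nf K (l * g) ≤ Y ^ 2 * Nf K f ^ (1 / 3 : ℝ) := by
      rw [hNr]
      exact mul_le_mul hRY h4.le hxr.le (by positivity)
    have h6 : Y ^ 2 * Nf K f ^ (1 / 3 : ℝ) ≤ 32 ^ n * (Nf K f ^ (1 / 3 : ℝ) * Y ^ 2) := by
      have : 0 ≤ Nf K f ^ (1 / 3 : ℝ) * Y ^ 2 := by positivity
      nlinarith
    linarith
  have hprime : ∀ P : Ideal (𝓞 K), P.IsPrime → f ≤ P → ∀ a : ℕ, a ≤ 2 → Nf K (P ^ a) ≤ Y ^ 2 := by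
    intro P hP hfP a ha
    have h1 := hfr P hP hfP
    have h0 : 0 ≤ Nf K P := by unfold Nf; positivity
    have e : Nf K (P ^ a) = Nf K P ^ a := by unfold Nf; rw [map_pow]; push_cast; rfl
    rw [e]
    calc Nf K P ^ a ≤ Y ^ a := pow_le_pow_left₀ h0 h1 a
      _ ≤ Y ^ 2 := pow_le_pow_right₀ hY ha
  have hflf : f ≤ l := by rw [hfe]; exact mL _ _
  have hfgq : f ≤ g * q := by rw [hfe]; exact mR _ _
  have hfg : f ≤ g := hfgq.trans (mL _ _)
  have hne_top : ∀ P : Ideal (𝓞 K), P.IsPrime → ∀ a : ℕ, 1 ≤ a → P ^ a ≠ ⊤ := by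
    intro P hP a ha h
    have : (⊤ : Ideal (𝓞 K)) ≤ P := by rw [← h]; exact Ideal.pow_le_self (by omega)
    exact hP.ne_top (top_le_iff.1 this)
  -- step 1
  have h8 : Ideal.span {((8 : ℕ) : 𝓞 K)} ≤ l := by
    apply le_of_prime_pow hG.l_ne (span_ne_bot 8 (by norm_num))
    intro P hP hP0 k hk hlk
    have hlP : l ≤ P := hlk.trans (Ideal.pow_le_self (by omega))
    have hfP : f ≤ P := hflf.trans hlP
    obtain ⟨a, ha, l', hl, hl'⟩ := exists_pow hP hG.l_ne hlP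
    have hka : k ≤ a := pow_exp_le hP0 hl hl' hlk
    have hGa : GQ (P ^ a * l') g q := hl ▸ hG
    have ha3 : 3 ≤ a := by
      by_contra h2
      have ha2 : a ≤ 2 := by omega
      refine key (P ^ a) l' g (q * P ^ a) (GQ1 hP hP0 ha ha2 hl' hGa) ?_ ?_ (hne_top P hP a ha)
        (hprime P hP hfP a ha2)
      · rw [hfe, hl]; ring
      · rw [hl]; ring
    have h2P : (2 : 𝓞 K) ∈ P ^ (a - 2) := by
      by_contra h2
      refine key (P ^ 2) l' (g * P ^ (a - 2)) (q * P ^ 2) (GQ2 hP hP0 ha3 h2 hl' hGa) ?_ ?_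
        (hne_top P hP 2 (by norm_num)) (hprime P hP hfP 2 le_rfl)
      · have e : P ^ a = P ^ (a - 2) * P ^ 2 := by rw [← pow_add]; congr 1; omega
        rw [hfe, hl, e]; ring
      · have e : P ^ a = P ^ (a - 2) * P ^ 2 := by rw [← pow_add]; congr 1; omega
        rw [hl, e]; ring
    rw [Ideal.span_singleton_le_iff_mem]
    have h3 : (2 : 𝓞 K) ^ 3 ∈ (P ^ (a - 2)) ^ 3 := Ideal.pow_mem_pow h2P 3
    rw [← pow_mul] at h3
    have h4 := Ideal.pow_le_pow_right (I := P) (show k ≤ (a - 2) * 3 by omega) h3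
    norm_num at h4 ⊢
    exact h4
  -- step 2
  have h64 : g * q * Ideal.span {((64 : ℕ) : 𝓞 K)} ≤ g ^ 3 := by
    apply le_of_prime_pow (pow_ne_bot' hG.g_ne 3)
      (mul_ne_bot (mul_ne_bot hG.g_ne hG.q_ne) (span_ne_bot 64 (by norm_num)))
    intro P hP hP0 k hk hgk
    have hgP : g ≤ P := hP.le_of_pow_le (hgk.trans (Ideal.pow_le_self (by omega)))
    have hfP : f ≤ P := hfg.trans hgP
    obtain ⟨s, hs, g', hg, hg'⟩ := exists_pow hP hG.g_ne hgP
    have hk3 : k ≤ 3 * s := by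
      apply pow_exp_le (l' := g' ^ 3) hP0 ?_ (fun h => hg' (hP.le_of_pow_le h)) hgk
      rw [hg, mul_pow, ← pow_mul, mul_comm s 3]
    rcases hG.loc P hP (hG.rad P hP hgP) with ⟨h1, _⟩ | ⟨h1, _⟩
    · exact absurd hgP h1
    have hG' : GQ l (P ^ s * g') q := hg ▸ hG
    rcases Nat.lt_or_ge s 2 with hs2 | hs2
    · have hs1 : s = 1 := by omega
      have h3 : g * q ≤ P ^ k := by
        have h4 : g * q ≤ P * P ^ 2 := Ideal.mul_mono hgP h1
        have h5 : P * P ^ 2 = P ^ 3 := by ring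
        rw [h5] at h4
        exact h4.trans (Ideal.pow_le_pow_right (by omega))
      exact (mL _ _).trans h3
    · have h2P : (2 : 𝓞 K) ∈ P ^ (s - 1) := by
        by_contra h2
        have hps : P ^ s = P ^ (s - 1) * P := by rw [← pow_succ]; congr 1; omega
        have hPY : Nf K P ≤ Y ^ 2 := by
          have := hprime P hP hfP 1 (by norm_num)
          rwa [pow_one] at this
        refine key P l (P ^ (s - 1) * g') (q * P) (GQ3 hP hP0 hs2 h2 hG') ?_ ?_ hP.ne_top hPY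
        · rw [hfe, hg, hps]; ring
        · rw [hg, hps]; ring
      have h3 : (2 : 𝓞 K) ^ 6 ∈ (P ^ (s - 1)) ^ 6 := Ideal.pow_mem_pow h2P 6
      rw [← pow_mul] at h3
      have h4 := Ideal.pow_le_pow_right (I := P) (show k ≤ (s - 1) * 6 by omega) h3
      refine (mR _ _).trans ?_
      rw [Ideal.span_singleton_le_iff_mem]
      norm_num at h4 ⊢
      exact h4
  have hl8 : Ideal.absNorm l ≤ 8 ^ n := by
    rw [← absNorm_span_pow n 8 hn]
    exact absNorm_le (span_ne_bot 8 (by norm_num)) h8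
  have hg64 : Ideal.absNorm g ^ 3 ≤ Ideal.absNorm f * 64 ^ n := by
    have h1 : Ideal.absNorm (g ^ 3) ≤ Ideal.absNorm (g * q * Ideal.span {((64 : ℕ) : 𝓞 K)}) :=
      absNorm_le (mul_ne_bot (mul_ne_bot hG.g_ne hG.q_ne) (span_ne_bot 64 (by norm_num))) h64
    rw [map_pow, map_mul, absNorm_span_pow n 64 hn] at h1
    refine h1.trans (Nat.mul_le_mul_right _ ?_)
    exact absNorm_le hf hfgq
  have hl8r : Nf K l ≤ 8 ^ n := by unfold Nf; exact_mod_cast hl8
  have hg64r : Nf K g ^ 3 ≤ Nf K f * 64 ^ n := by unfold Nf; exact_mod_cast hg64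
  have hg0 : 0 ≤ Nf K g := by unfold Nf; positivity
  have hgr : Nf K g ≤ 4 ^ n * Nf K f ^ (1 / 3 : ℝ) := by
    have e : (4 ^ n * Nf K f ^ (1 / 3 : ℝ)) ^ 3 = Nf K f * 64 ^ n := by
      rw [mul_pow, ← Real.rpow_natCast (Nf K f ^ (1 / 3 : ℝ)) 3, ← Real.rpow_mul (by linarith)]
      norm_num
      rw [← pow_mul, mul_comm n 3, pow_mul]
      norm_num
      ring
    exact (pow_le_pow_iff_left₀ hg0 (by positivity) (by norm_num : (3 : ℕ) ≠ 0)).1 (by rw [e]; exact hg64r)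
  have hfin : Nf K (l * g) ≤ 32 ^ n * Nf K f ^ (1 / 3 : ℝ) := by
    have e1 : Nf K (l * g) = Nf K l * Nf K g := by unfold Nf; rw [map_mul]; push_cast; rfl
    have e2 : (32 : ℝ) ^ n = 8 ^ n * 4 ^ n := by rw [← mul_pow]; norm_num
    rw [e1, e2, mul_assoc]
    exact mul_le_mul hl8r hgr hg0 (by positivity)
  have h7 : (32 : ℝ) ^ n * Nf K f ^ (1 / 3 : ℝ) ≤ 32 ^ n * (Nf K f ^ (1 / 3 : ℝ) * Y ^ 2) := by
    apply mul_le_mul_of_nonneg_left _ (by positivity)
    nlinarith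
  linarith

end Pool.Agent.H64.FW.FS
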