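import Pool.Agent.H31.FW.TargetsF
import Pool.Agent.H64.FW.FS

/-!
# The factorization of a friable ideal with a target (row FR of `fw_modules`)
-/

set_option autoImplicit false

open NumberField

namespace Pool.Agent.H64.FW.FR

open Pool.Agent.H23.LB Pool.Agent.H31.FW Pool.Agent.H64.FW.FS

variable {K : Type} [Field K] [NumberField K]

theorem pf_FR : Q_FR := by
  intro n
  refine ⟨32 ^ n, one_le_pow₀ (by norm_num), ?_⟩
  intro K _ _ hn f Y R₀ hf hY hfr hRlow hRup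
  have hfpos : 1 ≤ Ideal.absNorm f :=
    Nat.one_le_iff_ne_zero.2 (fun h0 => hf (Ideal.absNorm_eq_zero_iff.1 h0))
  have hNf1 : (1 : ℝ) ≤ Nf K f := by unfold Nf; exact_mod_cast hfpos
  have hex : ∃ m : ℕ, ∃ l g q : Ideal (𝓞 K), GQ l g q ∧ f = l * (g * q) ∧
      R₀ ≤ Nf K (l * g) ∧ Ideal.absNorm (l * g) = m := by
    refine ⟨_, f, ⊤, ⊤, ⟨hf, top_ne_bot, top_ne_bot, by simp, ?_, ?_⟩, by simp, ?_, rfl⟩
    · intro P hP h
      exact absurd (top_le_iff.1 h) hP.ne_top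
    · intro P hP h
      exact absurd (top_le_iff.1 h) hP.ne_top
    · rw [Ideal.mul_top]
      exact hRup
  classical
  obtain ⟨l, g, q, hG, hfe, hlow, hm⟩ := Nat.find_spec hex
  have hmin := fun m (hm : m < Nat.find hex) => Nat.find_min hex hm
  refine ⟨l, g, q, hG, hfe, hlow, ?_⟩
  by_contra hcon
  push Not at hcon
  have hY2 : (1 : ℝ) ≤ Y ^ 2 := one_le_pow₀ hY
  have hC1 : (1 : ℝ) ≤ 32 ^ n := one_le_pow₀ (by norm_num)
  have h3pos : 0 < Nf K f ^ (1 / 3 : ℝ) := Real.rpow_pos_of_pos (by linarith) _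
  have hR₀ : 0 < R₀ := lt_of_lt_of_le h3pos hRlow
  -- descent
  have key : ∀ R l2 g2 q2 : Ideal (𝓞 K), GQ l2 g2 q2 → f = l2 * (g2 * q2) →
      l * g = R * (l2 * g2) → R ≠ ⊤ → Nf K R ≤ Y ^ 2 → False := by
    intro R l2 g2 q2 hG2 hf2 he hR hRY
    have hN : Ideal.absNorm (l * g) = Ideal.absNorm R * Ideal.absNorm (l2 * g2) := by
      rw [he, map_mul]
    have hlg0 : l * g ≠ ⊥ := mul_ne_bot hG.l_ne hG.g_ne
    have hR0 : R ≠ ⊥ := by
      rintro rfl
      exact hlg0 (he.trans (Ideal.bot_mul _))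
    have hR1 : Ideal.absNorm R ≠ 0 := fun h0 => hR0 (Ideal.absNorm_eq_zero_iff.1 h0)
    have hR2 : Ideal.absNorm R ≠ 1 := fun h0 => hR (Ideal.absNorm_eq_one_iff.1 h0)
    have hx0 : l2 * g2 ≠ ⊥ := mul_ne_bot hG2.l_ne hG2.g_ne
    have hx1 : Ideal.absNorm (l2 * g2) ≠ 0 := fun h0 => hx0 (Ideal.absNorm_eq_zero_iff.1 h0)
    have hxpos : 0 < Ideal.absNorm (l2 * g2) := Nat.pos_of_ne_zero hx1
    have hlt : Ideal.absNorm (l2 * g2) < Ideal.absNorm (l * g) := by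
      rw [hN]
      have : 2 ≤ Ideal.absNorm R := by omega
      nlinarith
    apply hmin (Ideal.absNorm (l2 * g2)) (by rw [← hm]; exact hlt)
    refine ⟨l2, g2, q2, hG2, hf2, ?_, rfl⟩
    have hNr : Nf K (l * g) = Nf K R * Nf K (l2 * g2) := by
      unfold Nf; rw [hN]; push_cast; ring
    by_contra h4
    push Not at h4
    have hxr : 0 < Nf K (l2 * g2) := by unfold Nf; exact_mod_cast hxpos
    have h5 : Nf K (l * g) ≤ Y ^ 2 * R₀ := by
      rw [hNr]
      exact mul_le_mul hRY h4.le hxr.le (by positivity)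
    have h6 : Y ^ 2 * R₀ ≤ 32 ^ n * (R₀ * Y ^ 2) := by
      have : 0 ≤ R₀ * Y ^ 2 := by positivity
      nlinarith
    linarith
  have hprime : ∀ P : Ideal (𝓞 K), P.IsPrime → f ≤ P → ∀ a : ℕ, a ≤ 2 → Nf K (P ^ a) ≤ Y ^ 2 := by
    intro P hP hfP a ha
    have h1 := hfr P hP hfP
    have h0 : 0 ≤ Nf K P := by unfold Nf; positivity
    have e : Nf K (P ^ a) = Nf K P ^ a := by unfold Nf; rw [map_pow]; push_cast; rfl
    rw [e]
    calc Nf K P ^ a ≤ Y ^ a := pow_le_pow_left₀ h0 h1 a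
      _ ≤ Y ^ 2 := pow_le_pow_right₀ hY ha
  have hflf : f ≤ l := by rw [hfe]; exact mL _ _
  have hfgq : f ≤ g * q := by rw [hfe]; exact mR _ _
  have hfg : f ≤ g := hfgq.trans (mL _ _)
  have hne_top : ∀ P : Ideal (𝓞 K), P.IsPrime → ∀ a : ℕ, 1 ≤ a → P ^ a ≠ ⊤ := by
    intro P hP a ha h
    have : (⊤ : Ideal (𝓞 K)) ≤ P := by rw [← h]; exact Ideal.pow_le_self (by omega)
    exact hP.ne_top (top_le_iff.1 this)
  -- step 1
  have h8 : Ideal.span {((8 : ℕ) : 𝓞 K)} ≤ l := by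
    apply le_of_prime_pow hG.l_ne (span_ne_bot 8 (by norm_num))
    intro P hP hP0 k hk hlk
    have hlP : l ≤ P := hlk.trans (Ideal.pow_le_self (by omega))
    have hfP : f ≤ P := hflf.trans hlP
    obtain ⟨a, ha, l', hl, hl'⟩ := exists_pow hP hG.l_ne hlP
    have hka : k ≤ a := pow_exp_le hP0 hl hl' hlk
    have hGa : GQ (P ^ a * l') g q := hl ▸ hG
    have ha3 : 3 ≤ a := by
      by_contra h2
      have ha2 : a ≤ 2 := by omega
      refine key (P ^ a) l' g (q * P ^ a) (GQ1 hP hP0 ha ha2 hl' hGa) ?_ ?_ (hne_top P hP a ha)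
        (hprime P hP hfP a ha2)
      · rw [hfe, hl]; ring
      · rw [hl]; ring
    have h2P : (2 : 𝓞 K) ∈ P ^ (a - 2) := by
      by_contra h2
      refine key (P ^ 2) l' (g * P ^ (a - 2)) (q * P ^ 2) (GQ2 hP hP0 ha3 h2 hl' hGa) ?_ ?_
        (hne_top P hP 2 (by norm_num)) (hprime P hP hfP 2 le_rfl)
      · have e : P ^ a = P ^ (a - 2) * P ^ 2 := by rw [← pow_add]; congr 1; omega
        rw [hfe, hl, e]; ring
      · have e : P ^ a = P ^ (a - 2) * P ^ 2 := by rw [← pow_add]; congr 1; omega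
        rw [hl, e]; ring
    rw [Ideal.span_singleton_le_iff_mem]
    have h3 : (2 : 𝓞 K) ^ 3 ∈ (P ^ (a - 2)) ^ 3 := Ideal.pow_mem_pow h2P 3
    rw [← pow_mul] at h3
    have h4 := Ideal.pow_le_pow_right (I := P) (show k ≤ (a - 2) * 3 by omega) h3
    norm_num at h4 ⊢
    exact h4
  -- step 2
  have h64 : g * q * Ideal.span {((64 : ℕ) : 𝓞 K)} ≤ g ^ 3 := by
    apply le_of_prime_pow (pow_ne_bot' hG.g_ne 3)
      (mul_ne_bot (mul_ne_bot hG.g_ne hG.q_ne) (span_ne_bot 64 (by norm_num)))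
    intro P hP hP0 k hk hgk
    have hgP : g ≤ P := hP.le_of_pow_le (hgk.trans (Ideal.pow_le_self (by omega)))
    have hfP : f ≤ P := hfg.trans hgP
    obtain ⟨s, hs, g', hg, hg'⟩ := exists_pow hP hG.g_ne hgP
    have hk3 : k ≤ 3 * s := by
      apply pow_exp_le (l' := g' ^ 3) hP0 ?_ (fun h => hg' (hP.le_of_pow_le h)) hgk
      rw [hg, mul_pow, ← pow_mul, mul_comm s 3]
    rcases hG.loc P hP (hG.rad P hP hgP) with ⟨h1, _⟩ | ⟨h1, _⟩
    · exact absurd hgP h1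
    have hG' : GQ l (P ^ s * g') q := hg ▸ hG
    rcases Nat.lt_or_ge s 2 with hs2 | hs2
    · have hs1 : s = 1 := by omega
      have h3 : g * q ≤ P ^ k := by
        have h4 : g * q ≤ P * P ^ 2 := Ideal.mul_mono hgP h1
        have h5 : P * P ^ 2 = P ^ 3 := by ring
        rw [h5] at h4
        exact h4.trans (Ideal.pow_le_pow_right (by omega))
      exact (mL _ _).trans h3
    · have h2P : (2 : 𝓞 K) ∈ P ^ (s - 1) := by
        by_contra h2
        have hps : P ^ s = P ^ (s - 1) * P := by rw [← pow_succ]; congr 1; omega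
        have hPY : Nf K P ≤ Y ^ 2 := by
          have := hprime P hP hfP 1 (by norm_num)
          rwa [pow_one] at this
        refine key P l (P ^ (s - 1) * g') (q * P) (GQ3 hP hP0 hs2 h2 hG') ?_ ?_ hP.ne_top hPY
        · rw [hfe, hg, hps]; ring
        · rw [hg, hps]; ring
      have h3 : (2 : 𝓞 K) ^ 6 ∈ (P ^ (s - 1)) ^ 6 := Ideal.pow_mem_pow h2P 6
      rw [← pow_mul] at h3
      have h4 := Ideal.pow_le_pow_right (I := P) (show k ≤ (s - 1) * 6 by omega) h3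
      refine (mR _ _).trans ?_
      rw [Ideal.span_singleton_le_iff_mem]
      norm_num at h4 ⊢
      exact h4
  have hl8 : Ideal.absNorm l ≤ 8 ^ n := by
    rw [← absNorm_span_pow n 8 hn]
    exact absNorm_le (span_ne_bot 8 (by norm_num)) h8
  have hg64 : Ideal.absNorm g ^ 3 ≤ Ideal.absNorm f * 64 ^ n := by
    have h1 : Ideal.absNorm (g ^ 3) ≤ Ideal.absNorm (g * q * Ideal.span {((64 : ℕ) : 𝓞 K)}) :=
      absNorm_le (mul_ne_bot (mul_ne_bot hG.g_ne hG.q_ne) (span_ne_bot 64 (by norm_num))) h64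
    rw [map_pow, map_mul, absNorm_span_pow n 64 hn] at h1
    refine h1.trans (Nat.mul_le_mul_right _ ?_)
    exact absNorm_le hf hfgq
  have hl8r : Nf K l ≤ 8 ^ n := by unfold Nf; exact_mod_cast hl8
  have hg64r : Nf K g ^ 3 ≤ Nf K f * 64 ^ n := by unfold Nf; exact_mod_cast hg64
  have hg0 : 0 ≤ Nf K g := by unfold Nf; positivity
  have hgr : Nf K g ≤ 4 ^ n * Nf K f ^ (1 / 3 : ℝ) := by
    have e : (4 ^ n * Nf K f ^ (1 / 3 : ℝ)) ^ 3 = Nf K f * 64 ^ n := by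
      rw [mul_pow, ← Real.rpow_natCast (Nf K f ^ (1 / 3 : ℝ)) 3, ← Real.rpow_mul (by linarith)]
      norm_num
      rw [← pow_mul, mul_comm n 3, pow_mul]
      norm_num
      ring
    exact (pow_le_pow_iff_left₀ hg0 (by positivity) (by norm_num : (3 : ℕ) ≠ 0)).1 (by rw [e]; exact hg64r)
  have hfin : Nf K (l * g) ≤ 32 ^ n * Nf K f ^ (1 / 3 : ℝ) := by
    have e1 : Nf K (l * g) = Nf K l * Nf K g := by unfold Nf; rw [map_mul]; push_cast; rfl
    have e2 : (32 : ℝ) ^ n = 8 ^ n * 4 ^ n := by rw [← mul_pow]; norm_num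
    rw [e1, e2, mul_assoc]
    exact mul_le_mul hl8r hgr hg0 (by positivity)
  have h7 : (32 : ℝ) ^ n * Nf K f ^ (1 / 3 : ℝ) ≤ 32 ^ n * (R₀ * Y ^ 2) := by
    apply mul_le_mul_of_nonneg_left _ (by positivity)
    nlinarith
  linarith

end Pool.Agent.H64.FW.FR
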